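import Pool.Agent.W719.AX.Phs
import Pool.Agent.W803.AR.Rtt

/-!
# AX-RTX: the exact relation between the invariant and the iterated integral
-/

set_option autoImplicit false

namespace Pool.Agent.W215.AX

open Finset Filter Topology Matrix
open Pool.Agent.H550R3.Jones Pool.Agent.W711.HT Pool.Agent.W719.AR Pool.Agent.W719.AX
open Pool.Agent.W803.AR
open scoped Real

/-- the constant -/
noncomputable def Kt (N : ℕ) (t : Tr) : ℂ :=
  kp N ^ ws t * ((-1) ^ (N - 1) * (Complex.I * N ^ 2 / (2 * π))) ^ ne t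

theorem kp_ne (N : ℕ) : kp N ≠ 0 := by
  intro h
  have := norm_kp N
  rw [h, norm_zero] at this
  exact zero_ne_one this

theorem lm_treeK (hLMR : S_LMR) (hLMV : S_LMV) (hLMM : S_LMM) (N : ℕ) (hN : 2 ≤ N) (t : Tr) :
    Lm N (fun v c => ev N v t c) (fun ψ => Kt N t * (Ea t.wt N ψ * XX t N ψ)) := by
  induction t with
  | vx a =>
    have h := hLMV N a hN
    have h1 : (fun ψ : ℂ => Kt N (Tr.vx a) * (Ea (Tr.vx a).wt N ψ * XX (Tr.vx a) N ψ)) =
        fun ψ => kp N ^ a * Ea a N ψ := by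
      funext ψ
      change kp N ^ a * _ ^ 0 * (Ea a N ψ * 1) = _
      rw [pow_zero, mul_one, mul_one]
    rw [h1]
    exact h
  | br t c iht ihc =>
    have h3 := hLMR N (fun v c' => ev N v c c') _ hN ihc
    have h4 := hLMM N _ _ _ _ hN iht h3
    have hK : Kt N (Tr.br t c) = Kt N t * ((-1) ^ (N - 1) * (Complex.I * N ^ 2 / (2 * π)) * Kt N c) := by
      unfold Kt
      have e1 : ws (Tr.br t c) = ws t + ws c := rfl
      have e2 : ne (Tr.br t c) = ne t + ne c + 1 := rfl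
      rw [e1, e2, zpow_add₀ (kp_ne N), pow_succ, pow_add]
      ring
    have h5 : (fun ψ : ℂ => Kt N (Tr.br t c) *
        (Ea (Tr.br t c).wt N ψ * XX (Tr.br t c) N ψ)) =
        fun ψ => Kt N t * (Ea t.wt N ψ * XX t N ψ) * ((-1) ^ (N - 1) *
          (Complex.I * N ^ 2 / (2 * π)) * upp (1 / N) fun ψ_1 => Kt N c * (Ea c.wt N ψ_1 *
            XX c N ψ_1) * ker N ψ_1 ψ * kr N ψ_1) := by
      funext ψ
      have e1 : upp (1 / N) (fun ψ_1 => Kt N c * (Ea c.wt N ψ_1 *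
            XX c N ψ_1) * ker N ψ_1 ψ * kr N ψ_1) = Kt N c * stp c.wt (XX c) N ψ := by
        unfold stp
        rw [← upp_mul]
        congr 1
        funext ψ_1
        ring
      rw [e1, hK]
      change _ * (Ea t.wt N ψ * (XX t N ψ * stp c.wt (XX c) N ψ)) = _
      ring
    rw [h5]
    exact h4

theorem rtx : S_EVT → S_LMT → S_LMR → S_LMV → S_LMM → S_CNT → S_RTX := by
  intro hEVT hLMT hLMR hLMV hLMM hCNT t N hN
  have hN0 : 0 < N := by omega
  have hLm := lm_treeK hLMR hLMV hLMM N hN t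
  have hlim := hLMT N _ _ hN hLm
  have e1 : upp (1 / N) (fun ψ => Kt N t * (Ea t.wt N ψ * XX t N ψ) * kr N ψ) = Kt N t * JT t N := by
    unfold JT
    rw [← upp_mul]
    congr 1
    funext ψ
    ring
  rw [e1] at hlim
  have hvN0 : vN N ≠ 0 := Complex.exp_ne_zero _
  have hnorm : ‖vN N‖ = 1 := by
    unfold vN
    have : (π : ℂ) * Complex.I / N = ((π / N : ℝ) : ℂ) * Complex.I := by
      push_cast
      ring
    rw [this, Complex.norm_exp_ofReal_mul_I]
  have hne : (𝓝[{v : ℂ | ‖v‖ ≠ 1}] (vN N)).NeBot := by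
    rw [← mem_closure_iff_nhdsWithin_neBot, Metric.mem_closure_iff]
    intro ε hε
    refine ⟨((1 + ε / 2 : ℝ) : ℂ) * vN N, ?_, ?_⟩
    · simp only [Set.mem_ofPred_eq, norm_mul, hnorm, mul_one, Complex.norm_real, Real.norm_eq_abs]
      rw [abs_of_pos (by linarith)]
      linarith
    · rw [dist_eq_norm]
      have : vN N - ((1 + ε / 2 : ℝ) : ℂ) * vN N = ((-(ε / 2) : ℝ) : ℂ) * vN N := by
        push_cast
        ring
      rw [this, norm_mul, hnorm, mul_one, Complex.norm_real, Real.norm_eq_abs, abs_neg,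
        abs_of_pos (by linarith)]
      linarith
  have hle : 𝓝[{v : ℂ | ‖v‖ ≠ 1}] (vN N) ≤ 𝓝[≠] (vN N) := by
    apply nhdsWithin_mono
    intro v hv hc
    rw [Set.mem_singleton_iff] at hc
    apply hv
    rw [hc, hnorm]
  have h3 : Tendsto (jt t N) (𝓝[{v : ℂ | ‖v‖ ≠ 1}] (vN N)) (𝓝 (jt t N (vN N))) :=
    (hCNT t N).tendsto.mono_left nhdsWithin_le_nhds
  have hv0 : ∀ᶠ v in 𝓝[{v : ℂ | ‖v‖ ≠ 1}] (vN N), v ≠ 0 :=
    nhdsWithin_le_nhds (isOpen_ne.mem_nhds hvN0)
  have h5 : Tendsto (jt t N) (𝓝[{v : ℂ | ‖v‖ ≠ 1}] (vN N))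
      (𝓝 (Complex.I * N ^ 2 / (2 * π) * (Kt N t * JT t N))) := by
    refine (hlim.mono_left hle).congr' ?_
    filter_upwards [self_mem_nhdsWithin, hv0] with v hv hv'
    obtain ⟨u, hu, hg⟩ := gen_off hv' hv
    have e2 := hEVT u hg N hN0 t
    rw [hu] at e2
    have e3 : br v (N : ℤ) ≠ 0 := by
      rw [← hu]
      exact hg.2 N hN0
    rw [← e2]
    field_simp
  have h6 := tendsto_nhds_unique h3 h5
  rw [h6]
  unfold Kt
  rw [mul_pow, ← pow_mul, pow_succ]
  ring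

end Pool.Agent.W215.AX
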